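import Pool.Agent.H20.T4.Stm
import Pool.Agent.H48.TM4.Rec3

/-!
TM4, row (DEX): existence of the recurrence number `D` for every block. The conditions are only
needed at the highest window top `2a + 480w`, with precision `910w` (remark of helper48).
-/

namespace Pool.Agent.H61.T4

open Finset Pool.Agent.H9.TC Pool.Agent.H20.TM Pool.Agent.H20.T4

/-- from the real form at the top `vG` to the integer form modulo `2^v`, `v <= vG` -/
theorem dex_int (x : ℤ) (vG K v : ℕ) (hK : K ≤ vG) (hv : v ≤ vG)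
    (h : nn ((x : ℝ) / 2 ^ vG) ≤ (1 / 2) ^ K) : small v ((2 : ℤ) ^ (vG - K)) x := by
  unfold nn at h
  set z : ℤ := round ((x : ℝ) / 2 ^ vG) with hz
  refine ⟨x - z * 2 ^ vG, ?_, ?_⟩
  · have h1 : |((x - z * 2 ^ vG : ℤ) : ℝ)| ≤ ((2 ^ (vG - K) : ℤ) : ℝ) := by
      push_cast
      have e : (x : ℝ) - z * 2 ^ vG = ((x : ℝ) / 2 ^ vG - z) * 2 ^ vG := by
        field_simp
      rw [e, abs_mul, abs_of_pos (show (0 : ℝ) < 2 ^ vG by positivity)]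
      calc |(x : ℝ) / 2 ^ vG - z| * 2 ^ vG ≤ (1 / 2) ^ K * 2 ^ vG :=
            mul_le_mul_of_nonneg_right h (by positivity)
        _ = 2 ^ (vG - K) := by
            have e2 : vG = K + (vG - K) := by omega
            conv_lhs => rw [e2, pow_add, ← mul_assoc, ← mul_pow]
            norm_num
    have h2 : ((|x - z * 2 ^ vG| : ℤ) : ℝ) ≤ ((2 ^ (vG - K) : ℤ) : ℝ) := by
      rw [Int.cast_abs]
      exact h1
    exact_mod_cast h2
  · have e : x - (x - z * 2 ^ vG) = z * 2 ^ vG := by ring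
    rw [e]
    exact Dvd.dvd.mul_left (pow_dvd_pow 2 hv) z

/-- stability of `small` -/
theorem dex_stab {v : ℕ} {A B C x y : ℤ} (h : small v A x) (hB : |y - x| ≤ B)
    (hC : A + B ≤ C) : small v C y := by
  obtain ⟨s, h1, h2⟩ := h
  refine ⟨s + (y - x), ?_, ?_⟩
  · calc |s + (y - x)| ≤ |s| + |y - x| := abs_add_le _ _
      _ ≤ C := by linarith
  · have e : y - (s + (y - x)) = x - s := by ring
    rw [e]
    exact h2

/-- the sizes -/
theorem dex_size {c w a ν β P D n1 b : ℕ} (hw : c + 10 ≤ w) (hν : a + w = ν)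
    (hβ : β + 3 * P ≤ ν) (hP : 38758076 * w ≤ P) (h430 : 430 * w ≤ 2 * a)
    (hD : D ≤ 2 ^ P) (hn1 : n1 ≤ 2 ^ ν) (hb : b < 2 ^ β) :
    24 * c * D ^ 2 * (b * (2 * n1 + b)) ≤ 2 ^ (2 * a - 430 * w) ∧
    24 * c * D ^ 2 * (2 ^ a * b) ≤ 2 ^ (2 * a - 430 * w) := by
  have hc : c ≤ 2 ^ w := by
    calc c ≤ w := by omega
      _ ≤ 2 ^ w := Nat.lt_two_pow_self.le
  have hD2 : D ^ 2 ≤ 2 ^ (2 * P) := by
    calc D ^ 2 ≤ (2 ^ P) ^ 2 := Nat.pow_le_pow_left hD 2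
      _ = 2 ^ (2 * P) := by rw [← pow_mul]; congr 1; ring
  have hb' : b ≤ 2 ^ β := hb.le
  have hβν : 2 ^ β ≤ 2 ^ ν := Nat.pow_le_pow_right (by norm_num) (by omega)
  have h3 : 2 * n1 + b ≤ 2 ^ (ν + 2) := by
    calc 2 * n1 + b ≤ 2 * 2 ^ ν + 2 ^ ν := by omega
      _ ≤ 4 * 2 ^ ν := by omega
      _ = 2 ^ (ν + 2) := by ring
  have h24 : 24 * c ≤ 2 ^ (w + 5) := by
    calc 24 * c ≤ 32 * 2 ^ w := by omega
      _ = 2 ^ (w + 5) := by ring
  constructor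
  · calc 24 * c * D ^ 2 * (b * (2 * n1 + b)) ≤
          2 ^ (w + 5) * 2 ^ (2 * P) * (2 ^ β * 2 ^ (ν + 2)) :=
          Nat.mul_le_mul (Nat.mul_le_mul h24 hD2) (Nat.mul_le_mul hb' h3)
      _ = 2 ^ ((w + 5) + 2 * P + (β + (ν + 2))) := by rw [← pow_add, ← pow_add, ← pow_add]
      _ ≤ 2 ^ (2 * a - 430 * w) := Nat.pow_le_pow_right (by norm_num) (by omega)
  · calc 24 * c * D ^ 2 * (2 ^ a * b) ≤
          2 ^ (w + 5) * 2 ^ (2 * P) * (2 ^ a * 2 ^ β) :=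
          Nat.mul_le_mul (Nat.mul_le_mul h24 hD2) (Nat.mul_le_mul_left _ hb')
      _ = 2 ^ ((w + 5) + 2 * P + (a + β)) := by rw [← pow_add, ← pow_add, ← pow_add]
      _ ≤ 2 ^ (2 * a - 430 * w) := Nat.pow_le_pow_right (by norm_num) (by omega)

/-- one block -/
theorem dex_block {c w a ν β P n1 : ℕ} (hw : c + 10 ≤ w) (hν : a + w = ν)
    (hβ : β + 3 * P ≤ ν) (hP : 38758076 * w ≤ P) (h10 : 10 * P ≤ ν) (hn1 : n1 ≤ 2 ^ ν) :
    ∃ D : ℕ, 1 ≤ D ∧ D ≤ 2 ^ P ∧ ∀ b : ℕ, b < 2 ^ β → Dcond c w a D (n1 + b) := by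
  obtain ⟨D, d1, d2, ⟨q1, q2, q3⟩, ⟨l1, l2, l3⟩⟩ := Pool.Agent.H48.TM4.rec3 (910 * w)
    ((6 * c * (n1 : ℝ) ^ 2) / 2 ^ (2 * a + 480 * w))
    ((12 * c * 2 ^ a * (n1 : ℝ)) / 2 ^ (2 * a + 480 * w))
    ((6 * c * 2 ^ (2 * a)) / 2 ^ (2 * a + 480 * w))
  have hD : D ≤ 2 ^ P := d2.trans (Nat.pow_le_pow_right (by norm_num) (by omega))
  have h430 : 430 * w ≤ 2 * a := by omega
  refine ⟨D, d1, hD, fun b hb l hl1 hl2 => ?_⟩
  have hlw : l * w ≤ 480 * w := Nat.mul_le_mul_right w hl2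
  have hlw1 : 1 * w ≤ l * w := Nat.mul_le_mul_right w hl1
  have hv : 2 * a + l * w ≤ 2 * a + 480 * w := by omega
  have hK : 910 * w ≤ 2 * a + 480 * w := by omega
  have eK : 2 * a + 480 * w - 910 * w = 2 * a - 430 * w := by omega
  obtain ⟨S1, S2⟩ := dex_size hw hν hβ hP h430 hD hn1 hb
  clear hP d2
  have S1' : (24 * c * D ^ 2 * (b * (2 * n1 + b)) : ℤ) ≤ 2 ^ (2 * a - 430 * w) := by
    exact_mod_cast S1
  have S2' : (24 * c * D ^ 2 * (2 ^ a * b) : ℤ) ≤ 2 ^ (2 * a - 430 * w) := by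
    exact_mod_cast S2
  have hC : (2 : ℤ) ^ (2 * a - 430 * w) + 2 ^ (2 * a - 430 * w) ≤
      2 ^ (2 * a + l * w - 430 * w) := by
    have e : (2 : ℤ) ^ (2 * a - 430 * w) + 2 ^ (2 * a - 430 * w) =
        2 ^ (2 * a - 430 * w + 1) := by ring
    rw [e]
    exact pow_le_pow_right₀ (by norm_num) (by omega)
  have hDD : (D : ℤ) ≤ (D : ℤ) ^ 2 := by
    have : D ≤ D ^ 2 := by nlinarith
    exact_mod_cast this
  have hc0 : (0 : ℤ) ≤ c := Int.natCast_nonneg c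
  have hb0 : (0 : ℤ) ≤ b := Int.natCast_nonneg b
  have hn0 : (0 : ℤ) ≤ n1 := Int.natCast_nonneg n1
  have hD0 : (0 : ℤ) ≤ D := Int.natCast_nonneg D
  have hA0 : (0 : ℤ) ≤ 2 ^ a := by positivity
  have hT0 : (0 : ℤ) ≤ 2 ^ (2 * a - 430 * w) := by positivity
  have hY0 : (0 : ℤ) ≤ c * (b * (2 * n1 + b)) := by positivity
  have hZ0 : (0 : ℤ) ≤ c * (2 ^ a * b) := by positivity
  have hY1 : (c * (b * (2 * n1 + b)) : ℤ) * D ≤ (c * (b * (2 * n1 + b))) * D ^ 2 :=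
    mul_le_mul_of_nonneg_left hDD hY0
  have hZ1 : (c * (2 ^ a * b) : ℤ) * D ≤ (c * (2 ^ a * b)) * D ^ 2 :=
    mul_le_mul_of_nonneg_left hDD hZ0
  have hYD : (0 : ℤ) ≤ (c * (b * (2 * n1 + b))) * D := mul_nonneg hY0 hD0
  have hYD2 : (0 : ℤ) ≤ (c * (b * (2 * n1 + b))) * D ^ 2 := mul_nonneg hY0 (by positivity)
  have hZD : (0 : ℤ) ≤ (c * (2 ^ a * b)) * D := mul_nonneg hZ0 hD0
  have hZD2 : (0 : ℤ) ≤ (c * (2 ^ a * b)) * D ^ 2 := mul_nonneg hZ0 (by positivity)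
  refine ⟨?_, ?_, ?_, ?_, ?_, ?_⟩
  · have h1 : small (2 * a + l * w) ((2 : ℤ) ^ (2 * a + 480 * w - 910 * w))
        (12 * c * D * (n1 : ℤ) ^ 2) := by
      apply dex_int _ _ _ _ hK hv
      have e : (((12 * c * D * (n1 : ℤ) ^ 2 : ℤ)) : ℝ) / 2 ^ (2 * a + 480 * w) =
          2 * D * ((6 * c * (n1 : ℝ) ^ 2) / 2 ^ (2 * a + 480 * w)) := by
        push_cast; ring
      rw [e]
      exact l1
    rw [eK] at h1
    refine dex_stab h1 ?_ hC
    have e : (12 * c * D * ((n1 : ℤ) + b) ^ 2 - 12 * c * D * (n1 : ℤ) ^ 2 : ℤ) =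
        12 * ((c * (b * (2 * n1 + b))) * D) := by ring
    rw [e, abs_of_nonneg (by linarith)]
    linarith
  · have h1 : small (2 * a + l * w) ((2 : ℤ) ^ (2 * a + 480 * w - 910 * w))
        (24 * c * D * 2 ^ a * (n1 : ℤ)) := by
      apply dex_int _ _ _ _ hK hv
      have e : (((24 * c * D * 2 ^ a * (n1 : ℤ) : ℤ)) : ℝ) / 2 ^ (2 * a + 480 * w) =
          2 * D * ((12 * c * 2 ^ a * (n1 : ℝ)) / 2 ^ (2 * a + 480 * w)) := by
        push_cast; ring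
      rw [e]
      exact l2
    rw [eK] at h1
    refine dex_stab h1 ?_ hC
    have e : (24 * c * D * 2 ^ a * ((n1 : ℤ) + b) - 24 * c * D * 2 ^ a * (n1 : ℤ) : ℤ) =
        24 * ((c * (2 ^ a * b)) * D) := by ring
    rw [e, abs_of_nonneg (by linarith)]
    linarith
  · have h1 : small (2 * a + l * w) ((2 : ℤ) ^ (2 * a + 480 * w - 910 * w))
        (12 * c * D * 2 ^ (2 * a)) := by
      apply dex_int _ _ _ _ hK hv
      have e : (((12 * c * D * 2 ^ (2 * a) : ℤ)) : ℝ) / 2 ^ (2 * a + 480 * w) =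
          2 * D * ((6 * c * 2 ^ (2 * a)) / 2 ^ (2 * a + 480 * w)) := by
        push_cast; ring
      rw [e]
      exact l3
    rw [eK] at h1
    refine dex_stab h1 ?_ hC
    rw [sub_self, abs_zero]
    exact hT0
  · have h1 : small (2 * a + l * w) ((2 : ℤ) ^ (2 * a + 480 * w - 910 * w))
        (6 * c * D ^ 2 * (n1 : ℤ) ^ 2) := by
      apply dex_int _ _ _ _ hK hv
      have e : (((6 * c * D ^ 2 * (n1 : ℤ) ^ 2 : ℤ)) : ℝ) / 2 ^ (2 * a + 480 * w) =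
          (D : ℝ) ^ 2 * ((6 * c * (n1 : ℝ) ^ 2) / 2 ^ (2 * a + 480 * w)) := by
        push_cast; ring
      rw [e]
      exact q1
    rw [eK] at h1
    refine dex_stab h1 ?_ hC
    have e : (6 * c * D ^ 2 * ((n1 : ℤ) + b) ^ 2 - 6 * c * D ^ 2 * (n1 : ℤ) ^ 2 : ℤ) =
        6 * ((c * (b * (2 * n1 + b))) * D ^ 2) := by ring
    rw [e, abs_of_nonneg (by linarith)]
    linarith
  · have h1 : small (2 * a + l * w) ((2 : ℤ) ^ (2 * a + 480 * w - 910 * w))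
        (12 * c * D ^ 2 * 2 ^ a * (n1 : ℤ)) := by
      apply dex_int _ _ _ _ hK hv
      have e : (((12 * c * D ^ 2 * 2 ^ a * (n1 : ℤ) : ℤ)) : ℝ) / 2 ^ (2 * a + 480 * w) =
          (D : ℝ) ^ 2 * ((12 * c * 2 ^ a * (n1 : ℝ)) / 2 ^ (2 * a + 480 * w)) := by
        push_cast; ring
      rw [e]
      exact q2
    rw [eK] at h1
    refine dex_stab h1 ?_ hC
    have e : (12 * c * D ^ 2 * 2 ^ a * ((n1 : ℤ) + b) - 12 * c * D ^ 2 * 2 ^ a * (n1 : ℤ) : ℤ) =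
        12 * ((c * (2 ^ a * b)) * D ^ 2) := by ring
    rw [e, abs_of_nonneg (by linarith)]
    linarith
  · have h1 : small (2 * a + l * w) ((2 : ℤ) ^ (2 * a + 480 * w - 910 * w))
        (6 * c * D ^ 2 * 2 ^ (2 * a)) := by
      apply dex_int _ _ _ _ hK hv
      have e : (((6 * c * D ^ 2 * 2 ^ (2 * a) : ℤ)) : ℝ) / 2 ^ (2 * a + 480 * w) =
          (D : ℝ) ^ 2 * ((6 * c * 2 ^ (2 * a)) / 2 ^ (2 * a + 480 * w)) := by
        push_cast; ring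
      rw [e]
      exact q3
    rw [eK] at h1
    refine dex_stab h1 ?_ hC
    rw [sub_self, abs_zero]
    exact hT0

/-- (DEX). -/
theorem dex : DEXStmt := by
  refine ⟨38758076, by norm_num, fun c hc => ⟨c + 10, fun w hw ν a β hν hβ h10 n1 hn1 => ?_⟩⟩
  exact dex_block hw hν hβ (le_refl _) h10 hn1

end Pool.Agent.H61.T4
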