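import Pool.Agent.H20.T4.Stm

/-!
TM4, row (AVG): a set of points of small density has small density in most cells.
-/

namespace Pool.Agent.H61.T4

open Finset Pool.Agent.H9.TC Pool.Agent.H20.TM Pool.Agent.H20.T4

theorem avg_shift (M t : ℕ) (P : ℕ → Prop) : cnt M (fun y => P (y + t)) ≤ cnt M P + t := by
  classical
  unfold cnt
  have h1 : ((range M).filter (fun y => P (y + t))).card ≤ ((range (M + t)).filter P).card := by
    apply Finset.card_le_card_of_injOn (fun y => y + t)
    · intro y hy
      have hy' := Finset.mem_filter.1 (Finset.mem_coe.1 hy)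
      refine Finset.mem_coe.2 (Finset.mem_filter.2 ⟨?_, hy'.2⟩)
      have h3 := Finset.mem_range.1 hy'.1
      have h4 : y + t < M + t := by omega
      exact Finset.mem_range.2 h4
    · intro x _ y _ h
      exact Nat.add_right_cancel h
  have h2 : ((range (M + t)).filter P).card ≤ ((range M).filter P).card + t := by
    have h3 : (range (M + t)).filter P ⊆ (range M).filter P ∪ Finset.Ico M (M + t) := by
      intro y hy
      rw [Finset.mem_filter, Finset.mem_range] at hy
      rw [Finset.mem_union, Finset.mem_filter, Finset.mem_range, Finset.mem_Ico]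
      by_cases h : y < M
      · exact Or.inl ⟨h, hy.2⟩
      · exact Or.inr ⟨by omega, hy.1⟩
    refine (Finset.card_le_card h3).trans ((Finset.card_union_le _ _).trans ?_)
    rw [Nat.card_Ico]
    omega
  exact h1.trans h2

theorem avg_blocks (f : ℕ → ℕ) (K M : ℕ) :
    ∑ n ∈ range (K * M), f n = ∑ b ∈ range K, ∑ y ∈ range M, f (b * M + y) := by
  induction K with
  | zero => simp
  | succ K ih =>
    rw [Nat.succ_mul, Finset.sum_range_add, ih, Finset.sum_range_succ]

theorem avg_cnt (M : ℕ) : ∀ (A : ℕ) (Q : ℕ → ℕ → Prop),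
    ∑ y ∈ range M, cnt A (fun s => Q s y) = ∑ s ∈ range A, cnt M (fun y => Q s y) := by
  classical
  intro A Q
  unfold cnt
  simp only [Finset.card_filter]
  rw [Finset.sum_comm]

/-- one block -/
theorem avg_block (β A B R D b : ℕ) (Q : ℕ → ℕ → Prop) (hR : A + B * D ≤ R) :
    ∑ y ∈ range (2 ^ β), cnt2 A B (fun s x => Q b (b * 2 ^ β + y + s + D * x)) ≤
      A * B * (cnt (2 ^ β) (fun y => Q b (b * 2 ^ β + y)) + R) := by
  unfold cnt2
  rw [Finset.sum_comm]
  have h1 : ∀ x ∈ range B, ∑ y ∈ range (2 ^ β),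
      cnt A (fun s => Q b (b * 2 ^ β + y + s + D * x)) ≤
        A * (cnt (2 ^ β) (fun y => Q b (b * 2 ^ β + y)) + R) := by
    intro x hx
    rw [avg_cnt (2 ^ β) A (fun s y => Q b (b * 2 ^ β + y + s + D * x))]
    have h2 : ∀ s ∈ range A, cnt (2 ^ β) (fun y => Q b (b * 2 ^ β + y + s + D * x)) ≤
        cnt (2 ^ β) (fun y => Q b (b * 2 ^ β + y)) + R := by
      intro s hs
      have e : (fun y => Q b (b * 2 ^ β + y + s + D * x)) =
          (fun y => (fun z => Q b (b * 2 ^ β + z)) (y + (s + D * x))) := by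
        funext y
        have : b * 2 ^ β + y + s + D * x = b * 2 ^ β + (y + (s + D * x)) := by ring
        simp only [this]
      rw [e]
      refine (avg_shift (2 ^ β) (s + D * x) (fun z => Q b (b * 2 ^ β + z))).trans ?_
      have h3 : s + D * x ≤ R := by
        have h4 := Finset.mem_range.1 hs
        have h5 := Finset.mem_range.1 hx
        have h6 : D * x ≤ B * D := by
          rw [Nat.mul_comm D x]
          exact Nat.mul_le_mul_right D h5.le
        omega
      exact Nat.add_le_add_left h3 _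
    refine (Finset.sum_le_sum h2).trans ?_
    rw [Finset.sum_const, Finset.card_range, smul_eq_mul]
  refine (Finset.sum_le_sum h1).trans ?_
  rw [Finset.sum_const, Finset.card_range, smul_eq_mul]
  apply le_of_eq
  ring

/-- (AVG). -/
theorem avg : AVGStmt := by
  intro a β A B R Dd Q hβ hR
  have e : 2 ^ a = 2 ^ (a - β) * 2 ^ β := by
    rw [← pow_add]
    congr 1
    omega
  have h1 : ∑ n0 ∈ range (2 ^ a), cnt2 A B (fun s x => Q (n0 / 2 ^ β)
      (n0 + s + Dd (n0 / 2 ^ β) * x)) ≤
      ∑ b ∈ range (2 ^ (a - β)), A * B * (cnt (2 ^ β) (fun y => Q b (b * 2 ^ β + y)) + R) := by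
    rw [e, avg_blocks]
    refine Finset.sum_le_sum fun b _ => ?_
    refine le_trans (le_of_eq ?_) (avg_block β A B R (Dd b) b Q (hR b))
    refine Finset.sum_congr rfl fun y hy => ?_
    have h2 : (b * 2 ^ β + y) / 2 ^ β = b := by
      have h3 := Finset.mem_range.1 hy
      rw [Nat.mul_comm, Nat.mul_add_div (by positivity), Nat.div_eq_of_lt h3, Nat.add_zero]
    rw [h2]
  calc ((∑ n0 ∈ range (2 ^ a), cnt2 A B (fun s x => Q (n0 / 2 ^ β)
      (n0 + s + Dd (n0 / 2 ^ β) * x)) : ℕ) : ℝ) ≤
      ((∑ b ∈ range (2 ^ (a - β)), A * B *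
        (cnt (2 ^ β) (fun y => Q b (b * 2 ^ β + y)) + R) : ℕ) : ℝ) := by exact_mod_cast h1
    _ = _ := by
      push_cast
      rw [Finset.mul_sum]

end Pool.Agent.H61.T4
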